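import Pool.Agent.Helper66.HK.Stmts

/-! Sticky Kakeya sets, Hausdorff form: conditionally independent copies exist. -/

set_option autoImplicit false

namespace Pool.Agent.Helper66.HK

open Finset Pool.Agent.Helper69.RK

noncomputable section

theorem iid_eqL (h2 : ST_E2) {Ω α α' γ : Type} [Fintype Ω] (μ : Ω → ℝ) (f : Ω → α) (f' : Ω → α')
    (g : Ω → γ) (hμ : ∀ ω, 0 ≤ μ ω) (hf : ∀ ω ω', f ω = f ω' ↔ f' ω = f' ω') :
    CH μ f g = CH μ f' g := by
  apply le_antisymm
  · exact h2.1 Ω α α' γ μ f f' g hμ fun ω ω' _ _ h => (hf ω ω').2 (Prod.ext_iff.1 h).1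
  · exact h2.1 Ω α' α γ μ f' f g hμ fun ω ω' _ _ h => (hf ω ω').1 (Prod.ext_iff.1 h).1

open Classical in
/-- the joint variable -/
def iidPhi {Ω α β ι : Type} (F F' : Finset ι) (f : ι → Ω → α) (g : ι → Ω → β) (i : ι) (ω : Ω) :
    Option (α ⊕ β) :=
  if i ∈ F then some (Sum.inl (f i ω)) else if i ∈ F' then some (Sum.inr (g i ω)) else none

theorem iid_phi1 {Ω α β ι : Type} {F F' : Finset ι} (f : ι → Ω → α) (g : ι → Ω → β) {i : ι}
    (h : i ∈ F) : iidPhi F F' f g i = fun ω => some (Sum.inl (f i ω)) := by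
  funext ω; unfold iidPhi; rw [if_pos h]

theorem iid_phi2 {Ω α β ι : Type} {F F' : Finset ι} (f : ι → Ω → α) (g : ι → Ω → β) {i : ι}
    (h : i ∉ F) (h' : i ∈ F') : iidPhi F F' f g i = fun ω => some (Sum.inr (g i ω)) := by
  funext ω; unfold iidPhi; rw [if_neg h, if_pos h']

theorem iid_phi3 {Ω α β ι : Type} {F F' : Finset ι} (f : ι → Ω → α) (g : ι → Ω → β) {i : ι}
    (h : i ∉ F) (h' : i ∉ F') : iidPhi F F' f g i = fun _ => none := by
  funext ω; unfold iidPhi; rw [if_neg h, if_neg h']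

/-- entropies of single coordinates -/
theorem iid_sum (h2 : ST_E2) {Ω γ ι α β : Type} [Fintype Ω] [Fintype ι] (μ : Ω → ℝ) (K : Ω → γ)
    (hμ : ∀ ω, 0 ≤ μ ω) (F F' : Finset ι) (f : ι → Ω → α) (g : ι → Ω → β) (hd : Disjoint F F') :
    ∑ i, CH μ (iidPhi F F' f g i) K = ∑ i ∈ F, CH μ (f i) K + ∑ i ∈ F', CH μ (g i) K := by
  classical
  have h0 : ∀ i ∈ F, CH μ (iidPhi F F' f g i) K = CH μ (f i) K := by
    intro i hi
    rw [iid_phi1 f g hi]
    exact iid_eqL h2 μ _ _ K hμ fun ω ω' => by simp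
  have h0' : ∀ i ∈ F', CH μ (iidPhi F F' f g i) K = CH μ (g i) K := by
    intro i hi
    rw [iid_phi2 f g (Finset.disjoint_right.1 hd hi) hi]
    exact iid_eqL h2 μ _ _ K hμ fun ω ω' => by simp
  have h0'' : ∀ i ∈ (univ : Finset ι), i ∉ F ∪ F' → CH μ (iidPhi F F' f g i) K = 0 := by
    intro i _ hi
    rw [Finset.mem_union, not_or] at hi
    rw [iid_phi3 f g hi.1 hi.2]
    exact h2.2.2 Ω (Option (α ⊕ β)) γ μ (fun _ => none) K hμ fun _ _ _ _ _ => rfl
  rw [← Finset.sum_subset (Finset.subset_univ (F ∪ F')) h0'', Finset.sum_union hd,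
    Finset.sum_congr rfl h0, Finset.sum_congr rfl h0']

theorem st_IID (h1 : ST_E1) (h2 : ST_E2) (h8 : ST_E8) : ST_IID := by
  classical
  intro Ω γ ι _ _ _ μ K hμ
  obtain ⟨Ω', i', μ', π, hnn, hpu, hsu, heq, hind, _⟩ :=
    h8 Ω γ μ K (Fintype.card ι) hμ Fintype.card_pos
  obtain ⟨e, _⟩ : ∃ e : ι ≃ Fin (Fintype.card ι), e = Fintype.equivFin ι := ⟨_, rfl⟩
  refine ⟨Ω', i', μ', fun r => π (e r), hnn, fun r => hpu _, fun w hw r => hsu w hw _,
    fun w hw r r' => heq w hw _ _, ?_⟩
  intro α β F F' f g r0 hd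
  obtain ⟨K0, hK0⟩ : ∃ K0 : Ω' → γ, K0 = fun w => K (π (e r0) w) := ⟨_, rfl⟩
  -- joint entropies
  have hjoint : ∀ (A A' : Finset ι), Disjoint A A' →
      CH μ' (fun w => fun i : ι => iidPhi A A' f g i (π (e i) w)) K0 =
        ∑ i ∈ A, CH μ (f i) K + ∑ i ∈ A', CH μ (g i) K := by
    intro A A' hA
    rw [← iid_sum h2 μ K hμ A A' f g hA]
    have e1 := hind (Option (α ⊕ β)) (fun r => iidPhi A A' f g (e.symm r)) (e r0)
    have e2 : ∑ r, CH μ (iidPhi A A' f g (e.symm r)) K = ∑ i, CH μ (iidPhi A A' f g i) K :=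
      Equiv.sum_comp e.symm fun i => CH μ (iidPhi A A' f g i) K
    rw [← e2, ← e1, hK0]
    refine iid_eqL h2 μ' _ _ _ hnn fun w w' => ?_
    constructor
    · intro h
      funext r
      have := congrFun h (e.symm r)
      simpa using this
    · intro h
      funext i
      have := congrFun h (e i)
      simpa using this
  have hchain := (h1 Ω' (∀ _ : F', β) (∀ _ : F, α) γ μ' (fun w => fun r : F' => g r (π (e r) w))
    (fun w => fun r : F => f r (π (e r) w)) K0 hnn).2.1
  have ha : CH μ' (fun w => ((fun r : F' => g r (π (e r) w)), (fun r : F => f r (π (e r) w)))) K0 =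
      ∑ i ∈ F, CH μ (f i) K + ∑ i ∈ F', CH μ (g i) K := by
    rw [← hjoint F F' hd]
    refine iid_eqL h2 μ' _ _ _ hnn fun w w' => ?_
    constructor
    · intro h
      obtain ⟨ha, hb⟩ := Prod.ext_iff.1 h
      funext i
      by_cases hi : i ∈ F
      · rw [iid_phi1 f g hi]
        have := congrFun hb ⟨i, hi⟩
        simp only at this ⊢
        rw [this]
      · by_cases hi' : i ∈ F'
        · rw [iid_phi2 f g hi hi']
          have := congrFun ha ⟨i, hi'⟩
          simp only at this ⊢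
          rw [this]
        · rw [iid_phi3 f g hi hi']
    · intro h
      refine Prod.ext_iff.2 ⟨?_, ?_⟩
      · funext i
        have := congrFun h i.1
        rw [iid_phi2 f g (Finset.disjoint_right.1 hd i.2) i.2] at this
        simpa using this
      · funext i
        have := congrFun h i.1
        rw [iid_phi1 f g i.2] at this
        simpa using this
  have hb : CH μ' (fun w => fun r : F' => g r (π (e r) w)) K0 = ∑ i ∈ F', CH μ (g i) K := by
    have h3 := hjoint ∅ F' (Finset.disjoint_empty_left _)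
    rw [Finset.sum_empty, zero_add] at h3
    rw [← h3]
    refine iid_eqL h2 μ' _ _ _ hnn fun w w' => ?_
    constructor
    · intro h
      funext i
      by_cases hi' : i ∈ F'
      · rw [iid_phi2 f g (Finset.notMem_empty i) hi']
        have := congrFun h ⟨i, hi'⟩
        simp only at this ⊢
        rw [this]
      · rw [iid_phi3 f g (Finset.notMem_empty i) hi']
    · intro h
      funext i
      have := congrFun h i.1
      rw [iid_phi2 f g (Finset.notMem_empty i.1) i.2] at this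
      simpa using this
  rw [ha, hb] at hchain
  rw [hK0] at hchain
  linarith

end

end Pool.Agent.Helper66.HK
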