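import Pool.Agent.Helper66.HK.Stmts

/-! Sticky Kakeya sets, Hausdorff form: sums of conditionally independent copies. -/

set_option autoImplicit false

namespace Pool.Agent.Helper66.HK

open Finset Pool.Agent.Helper69.RK

noncomputable section

/-- subadditivity for finite families -/
theorem kv_sub (h1 : ST_E1) (h2 : ST_E2) {Ω α γ ι : Type} [Fintype Ω] {μ : Ω → ℝ}
    (hμ : ∀ ω, 0 ≤ μ ω) (f : ι → Ω → α) (g : Ω → γ) (F : Finset ι) :
    CH μ (fun ω => fun r : F => f r ω) g ≤ ∑ r ∈ F, CH μ (f r) g := by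
  classical
  induction F using Finset.induction_on with
  | empty =>
    have : CH μ (fun ω => fun r : (∅ : Finset ι) => f r ω) g = 0 :=
      h2.2.2 _ _ _ μ _ g hμ fun ω ω' _ _ _ =>
        funext fun r => absurd r.2 (Finset.notMem_empty _)
    rw [this, Finset.sum_empty]
  | insert j F hj ih =>
    have e1 : CH μ (fun ω => fun r : (insert j F : Finset ι) => f r ω) g ≤
        CH μ (fun ω => ((fun r : F => f r ω), f j ω)) g := by
      refine h2.1 _ _ _ _ μ _ _ g hμ fun ω ω' _ _ h => ?_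
      obtain ⟨ha, _⟩ := Prod.ext_iff.1 h
      obtain ⟨hb, hc⟩ := Prod.ext_iff.1 ha
      simp only at hb hc
      funext r
      rcases Finset.mem_insert.1 r.2 with h3 | h3
      · rw [h3]; exact hc
      · exact congrFun hb ⟨r.1, h3⟩
    have e2 := (h1 Ω _ _ γ μ (fun ω => fun r : F => f r ω) (f j) g hμ).2.1
    have e3 := (h1 Ω _ _ γ μ (f j) (fun ω => fun r : F => f r ω) g hμ).2.2
    rw [Finset.sum_insert hj]
    linarith

/-- the chain rule in both orders -/
theorem kv_swap (h1 : ST_E1) (h2 : ST_E2) {Ω α β γ : Type} [Fintype Ω] {μ : Ω → ℝ}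
    (hμ : ∀ ω, 0 ≤ μ ω) (f : Ω → α) (h : Ω → β) (g : Ω → γ) :
    CH μ f g + CH μ h (fun ω => (f ω, g ω)) = CH μ h g + CH μ f (fun ω => (h ω, g ω)) := by
  rw [← (h1 Ω α β γ μ f h g hμ).2.1, ← (h1 Ω β α γ μ h f g hμ).2.1]
  apply le_antisymm
  · refine h2.1 _ _ _ _ μ _ _ g hμ fun ω ω' _ _ h => ?_
    simp only [Prod.mk.injEq] at h ⊢
    exact ⟨h.1.2, h.1.1⟩
  · refine h2.1 _ _ _ _ μ _ _ g hμ fun ω ω' _ _ h => ?_
    simp only [Prod.mk.injEq] at h ⊢
    exact ⟨h.1.2, h.1.1⟩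

theorem st_KV (h1 : ST_E1) (h2 : ST_E2) (h5 : ST_E5) : ST_KV := by
  classical
  intro Ω Ω' 𝔾 γ κ ξ ι _ _ _ μ μ' π K c X Λ B r0 F hμ hI hKc hKΛ hB hF
  have hμ' := hI.nn
  have hpush : ∀ {α β : Type} (f : Ω → α) (g : Ω → β) (r : ι),
      CH μ' (fun w => f (π r w)) (fun w => g (π r w)) = CH μ f g := by
    intro α β f g r
    have := (h5.1 Ω Ω' α β μ' (π r) f g hμ').2.2
    rw [hI.pu r] at this
    exact this.symm
  have hc0 : ∀ w, μ' w ≠ 0 → ∀ r, c (π r w) = c (π r0 w) := fun w hw r =>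
    hKc _ _ (hI.su w hw r) (hI.su w hw r0) (hI.eq w hw r r0)
  have hΛ0 : ∀ w, μ' w ≠ 0 → ∀ r, Λ (π r w) = Λ (π r0 w) := fun w hw r =>
    hKΛ _ _ (hI.su w hw r) (hI.su w hw r0) (hI.eq w hw r r0)
  have hcK : ∀ w w', μ' w ≠ 0 → μ' w' ≠ 0 → K (π r0 w) = K (π r0 w') →
      c (π r0 w) = c (π r0 w') := fun w w' hw hw' h =>
    hKc _ _ (hI.su w hw r0) (hI.su w' hw' r0) h
  have hΛK : ∀ w w', μ' w ≠ 0 → μ' w' ≠ 0 → K (π r0 w) = K (π r0 w') →
      Λ (π r0 w) = Λ (π r0 w') := fun w w' hw hw' h =>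
    hKΛ _ _ (hI.su w hw r0) (hI.su w' hw' r0) h
  have hBX : ∀ w w', μ' w ≠ 0 → μ' w' ≠ 0 → ∀ r, X (π r w) = X (π r w') →
      c (π r0 w) = c (π r0 w') → B (π r w) = B (π r w') := by
    intro w w' hw hw' r hx hc
    refine hB _ _ (hI.su w hw r) (hI.su w' hw' r) ?_
    simp only [Prod.mk.injEq]
    exact ⟨hx, by rw [hc0 w hw r, hc0 w' hw' r, hc]⟩
  obtain ⟨H1, hH1⟩ : ∃ H1 : ℝ, H1 = CH μ (fun ω => Λ ω + B ω) c := ⟨_, rfl⟩
  obtain ⟨H2, hH2⟩ : ∃ H2 : ℝ, H2 = CH μ Λ (fun ω => (X ω, c ω)) := ⟨_, rfl⟩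
  obtain ⟨I0, hI0⟩ : ∃ I0 : ℝ, I0 = MI μ X K c := ⟨_, rfl⟩
  have hI0nn : 0 ≤ I0 := by
    rw [hI0]
    unfold MI
    have := (h1 Ω ξ κ γ μ X K c hμ).2.2
    linarith
  have hD : H2 ≤ H1 := by
    rw [hH1, hH2]
    refine le_trans ?_ (h1 Ω _ ξ γ μ (fun ω => Λ ω + B ω) X c hμ).2.2
    refine h2.1 _ _ _ _ μ _ _ _ hμ fun ω ω' hω hω' h => ?_
    simp only [Prod.mk.injEq] at h
    have hb := hB ω ω' hω hω' (by simp only [Prod.mk.injEq]; exact h.2)
    have := h.1
    rw [hb] at this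
    exact add_right_cancel this
  -- one summand
  have hone : ∀ j, CH μ' (fun w => Λ (π r0 w) + B (π j w)) (fun w => c (π r0 w)) = H1 := by
    intro j
    rw [hH1, ← hpush (fun ω => Λ ω + B ω) c j]
    apply le_antisymm
    · refine le_trans (h2.1 _ _ _ _ μ' _ (fun w => Λ (π j w) + B (π j w)) _ hμ'
        fun w w' hw hw' h => ?_) (h2.2.1 _ _ _ _ μ' _ _ _ hμ' fun w w' hw hw' h => ?_)
      · simp only [Prod.mk.injEq] at h
        rw [← hΛ0 w hw j, ← hΛ0 w' hw' j]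
        exact h.1
      · change c (π j w) = c (π j w')
        rw [hc0 w hw j, hc0 w' hw' j]
        exact h
    · refine le_trans (h2.1 _ _ _ _ μ' _ (fun w => Λ (π r0 w) + B (π j w)) _ hμ'
        fun w w' hw hw' h => ?_) (h2.2.1 _ _ _ _ μ' _ _ _ hμ' fun w w' hw hw' h => ?_)
      · simp only [Prod.mk.injEq] at h
        rw [hΛ0 w hw j, hΛ0 w' hw' j]
        exact h.1
      · change c (π r0 w) = c (π r0 w')
        rw [← hc0 w hw j, ← hc0 w' hw' j]
        exact h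
  -- the step
  have hstep : ∀ (A : Finset ι) (j : ι), j ∉ A →
      CH μ' (fun w => Λ (π r0 w) + ∑ r ∈ insert j A, B (π r w)) (fun w => c (π r0 w)) ≤
        CH μ' (fun w => Λ (π r0 w) + ∑ r ∈ A, B (π r w)) (fun w => c (π r0 w)) +
          ((H1 - H2) + A.card * I0) := by
    intro A j hj
    obtain ⟨c0, hc0'⟩ : ∃ c0 : Ω' → γ, c0 = fun w => c (π r0 w) := ⟨_, rfl⟩
    obtain ⟨S, hS⟩ : ∃ S : Ω' → 𝔾, S = fun w => Λ (π r0 w) + ∑ r ∈ A, B (π r w) := ⟨_, rfl⟩
    obtain ⟨S', hS'⟩ : ∃ S' : Ω' → 𝔾, S' = fun w => Λ (π r0 w) + ∑ r ∈ insert j A, B (π r w) :=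
      ⟨_, rfl⟩
    obtain ⟨Bj, hBj⟩ : ∃ Bj : Ω' → 𝔾, Bj = fun w => B (π j w) := ⟨_, rfl⟩
    obtain ⟨L, hL⟩ : ∃ L : Ω' → 𝔾, L = fun w => Λ (π r0 w) + B (π j w) := ⟨_, rfl⟩
    obtain ⟨V, hV⟩ : ∃ V : Ω' → (A → ξ), V = fun w => fun r : A => X (π r w) := ⟨_, rfl⟩
    have hSS : ∀ w, S' w = S w + Bj w := by
      intro w
      rw [hS', hS, hBj]
      simp only
      rw [Finset.sum_insert hj, add_comm (B (π j w)), add_assoc]
    have hSL : ∀ w, S' w = L w + ∑ r ∈ A, B (π r w) := by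
      intro w
      rw [hS', hL]
      simp only
      rw [Finset.sum_insert hj, add_assoc]
    rw [← hc0', ← hS, ← hS']
    have a1 := kv_swap h1 h2 hμ' S' Bj c0
    have a2 : CH μ' S' (fun w => (Bj w, c0 w)) ≤ CH μ' S c0 := by
      refine le_trans ?_ (h1 Ω' _ _ _ μ' S Bj c0 hμ').2.2
      refine h2.1 _ _ _ _ μ' _ _ _ hμ' fun w w' _ _ h => ?_
      simp only [Prod.mk.injEq] at h
      rw [hSS, hSS, h.1, h.2.1]
    have a3 : CH μ' Bj (fun w => (V w, (L w, c0 w))) ≤ CH μ' Bj (fun w => (S' w, c0 w)) := by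
      refine h2.2.1 _ _ _ _ μ' _ _ _ hμ' fun w w' hw hw' h => ?_
      simp only [Prod.mk.injEq] at h ⊢
      refine ⟨?_, h.2.2⟩
      rw [hSL, hSL, h.2.1]
      congr 1
      refine Finset.sum_congr rfl fun r hr => ?_
      refine hBX w w' hw hw' r ?_ ?_
      · have := congrFun h.1 ⟨r, hr⟩
        rw [hV] at this
        exact this
      · have := h.2.2
        rw [hc0'] at this
        exact this
    have a4 := kv_swap h1 h2 hμ' Bj L c0
    have a5 : CH μ' L c0 = H1 := by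
      rw [hL, hc0']
      exact hone j
    have a6 : H2 ≤ CH μ' L (fun w => (Bj w, c0 w)) := by
      have b1 : CH μ' (fun w => Λ (π j w)) (fun w => (Bj w, c0 w)) ≤
          CH μ' L (fun w => (Bj w, c0 w)) := by
        refine h2.1 _ _ _ _ μ' _ _ _ hμ' fun w w' hw hw' h => ?_
        simp only [Prod.mk.injEq] at h
        have h3 := h.1
        have h4 := h.2.1
        rw [hL] at h3
        rw [hBj] at h4
        simp only at h3 h4
        rw [h4] at h3
        have h6 := add_right_cancel h3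
        rw [hΛ0 w hw j, hΛ0 w' hw' j]
        exact h6
      refine le_trans ?_ b1
      rw [hH2, ← hpush Λ (fun ω => (X ω, c ω)) j]
      refine h2.2.1 _ _ _ _ μ' _ _ _ hμ' fun w w' hw hw' h => ?_
      simp only [Prod.mk.injEq] at h ⊢
      have h3 : c (π r0 w) = c (π r0 w') := by
        rw [← hc0 w hw j, ← hc0 w' hw' j]
        exact h.2
      refine ⟨?_, ?_⟩
      · rw [hBj]
        exact hBX w w' hw hw' j h.1 h3
      · rw [hc0']
        exact h3
    have a7 := kv_swap h1 h2 hμ' Bj V (fun w => (L w, c0 w))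
    have a8 : CH μ' V (fun w => (L w, c0 w)) ≤ A.card * CH μ X c := by
      refine (h1 Ω' _ _ _ μ' V L c0 hμ').2.2.trans ?_
      have b1 := kv_sub h1 h2 hμ' (fun (r : ι) (w : Ω') => X (π r w)) c0 A
      rw [hV]
      refine b1.trans ?_
      have b2 : ∀ r ∈ A, CH μ' (fun w => X (π r w)) c0 ≤ CH μ X c := by
        intro r _
        rw [← hpush X c r]
        refine h2.2.1 _ _ _ _ μ' _ _ _ hμ' fun w w' hw hw' h => ?_
        rw [hc0'] at h
        simp only at h ⊢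
        rw [hc0 w hw r, hc0 w' hw' r]
        exact h
      refine (Finset.sum_le_sum b2).trans ?_
      rw [Finset.sum_const, nsmul_eq_mul]
    have a9 : A.card * CH μ X K ≤ CH μ' V (fun w => (Bj w, (L w, c0 w))) := by
      have b1 := hI.ind ξ ξ A {j} (fun _ => X) (fun _ => X) r0
        (Finset.disjoint_singleton_right.2 hj)
      rw [Finset.sum_const, nsmul_eq_mul] at b1
      rw [← b1, hV]
      refine h2.2.1 _ _ _ _ μ' _ _ _ hμ' fun w w' hw hw' h => ?_
      simp only [Prod.mk.injEq] at h ⊢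
      have h3 : X (π j w) = X (π j w') := congrFun h.1 ⟨j, Finset.mem_singleton_self j⟩
      have h4 := hcK w w' hw hw' h.2
      have h5 := hΛK w w' hw hw' h.2
      have h6 := hBX w w' hw hw' j h3 h4
      rw [hBj, hL, hc0']
      simp only
      exact ⟨h6, by rw [h5, h6], h4⟩
    have a10 : CH μ X (fun ω => (K ω, c ω)) ≤ CH μ X K :=
      h2.2.1 _ _ _ _ μ _ _ _ hμ fun ω ω' _ _ h => (Prod.mk.injEq _ _ _ _ ▸ h).1
    have a11 : (A.card : ℝ) * I0 = A.card * CH μ X c - A.card * CH μ X (fun ω => (K ω, c ω)) := by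
      rw [hI0]
      unfold MI
      ring
    have a12 : (A.card : ℝ) * CH μ X (fun ω => (K ω, c ω)) ≤ A.card * CH μ X K :=
      mul_le_mul_of_nonneg_left a10 (Nat.cast_nonneg _)
    linarith
  -- all summands
  have hall : ∀ A : Finset ι, A.Nonempty →
      CH μ' (fun w => Λ (π r0 w) + ∑ r ∈ A, B (π r w)) (fun w => c (π r0 w)) ≤
        H1 + ((A.card : ℝ) - 1) * ((H1 - H2) + ((A.card : ℝ) - 1) * I0) := by
    intro A
    induction A using Finset.induction_on with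
    | empty => intro h; exact absurd h Finset.not_nonempty_empty
    | insert j A hj ih =>
      intro _
      rcases Finset.eq_empty_or_nonempty A with h0 | h0
      · subst h0
        have := hone j
        simp only [insert_empty_eq, Finset.sum_singleton, Finset.card_singleton, Nat.cast_one,
          sub_self, zero_mul, add_zero]
        exact this.le
      · have h3 := hstep A j hj
        have h4 := ih h0
        rw [Finset.card_insert_of_notMem hj]
        push_cast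
        have h5 : (1 : ℝ) ≤ A.card := by exact_mod_cast h0.card_pos
        have h6 : 0 ≤ ((A.card : ℝ) - 1) * I0 := mul_nonneg (by linarith) hI0nn
        nlinarith
  -- the end
  have hend1 : CH μ' (fun w => ∑ r ∈ F, B (π r w)) (fun w => K (π r0 w)) ≤
      CH μ' (fun w => Λ (π r0 w) + ∑ r ∈ F, B (π r w)) (fun w => K (π r0 w)) := by
    refine h2.1 _ _ _ _ μ' _ _ _ hμ' fun w w' hw hw' h => ?_
    simp only [Prod.mk.injEq] at h
    have h3 := h.1
    rw [hΛK w w' hw hw' h.2] at h3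
    exact add_left_cancel h3
  have hend2 : CH μ' (fun w => Λ (π r0 w) + ∑ r ∈ F, B (π r w)) (fun w => K (π r0 w)) ≤
      CH μ' (fun w => Λ (π r0 w) + ∑ r ∈ F, B (π r w)) (fun w => c (π r0 w)) :=
    h2.2.1 _ _ _ _ μ' _ _ _ hμ' fun w w' hw hw' h => hcK w w' hw hw' h
  have hend3 := hall F hF
  have hN : (1 : ℝ) ≤ F.card := by exact_mod_cast hF.card_pos
  have e1 : ((F.card : ℝ) - 1) * ((H1 - H2) + ((F.card : ℝ) - 1) * I0) ≤
      F.card * ((H1 - H2) + F.card * I0) := by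
    have e2 : ((F.card : ℝ) - 1) * I0 ≤ F.card * I0 :=
      mul_le_mul_of_nonneg_right (by linarith) hI0nn
    have e3 : 0 ≤ (F.card : ℝ) * I0 := by positivity
    exact mul_le_mul (by linarith) (by linarith) (by
      have : 0 ≤ ((F.card : ℝ) - 1) * I0 := mul_nonneg (by linarith) hI0nn
      linarith) (by linarith)
  rw [hH1, hH2, hI0] at e1 hend3
  linarith

end

end Pool.Agent.Helper66.HK
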